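import Pool.Agent.Q270.VB.Un

/-!
# Almost all bases are good for all algebraic numbers of bounded height simultaneously

There is an absolute constant `δ > 0` such that for all `d` and `ε > 0`:

* for `B ≥ B₀(d)` and for every irrational algebraic number `x` of degree `≤ d` and height
  `≤ exp(√(log B))`: if `b` is a random base, uniformly distributed in `1, …, B`, then the fractional
  parts `{b x}, {b² x}, …, {b ^ N x}`, that is the numbers `0.a_2 a_3…`, `0.a_3 a_4…`, … formed by the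
  digits of `x` in base `b`, read with the precision `1/q`, are independent and uniformly distributed
  up to an error `exp(-(log B) ^ δ)` in total variation, for all `N ≤ (log B) ^ δ` and
  `q ≤ exp((log B) ^ δ)`;
* for some `κ > 0`: all bases `b ≤ B` outside an exceptional set with at most `B exp(-(log B) ^ κ)`
  elements have the following property: for *every* irrational algebraic number `x` of degree `≤ d`
  and height `≤ exp((log b) ^ κ)` the sequence `{b ^ i x}` has, in all windows `m < i ≤ m + n` with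
  `m + n ≤ (log b) ^ δ`, a discrepancy which is at most `√n (log b) ^ ε`.

In particular every irrational algebraic number is normal up to the place `(log b) ^ δ`, with square
root error, in almost all bases, and these bases can be chosen simultaneously for all algebraic
numbers of bounded degree and height.

Proof. The exponential sums `∑_{b ≤ B} e(x ∑ l_i b ^ i)` of degree `≤ (log B) ^ δ`, with the coefficients
`l_i` up to `exp(√(log B))`, are bounded by `B exp(-√(log B))` by Vinogradov's mean value method,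
uniformly in `x` by Liouville's inequality with explicit constants; the number of the numbers `x` is
`exp(O((log b) ^ κ))`, and the exceptional sets of the individual numbers are smaller than
`B exp(-(log B) ^ (2 κ))` by the concentration inequality for independent variables.
-/

set_option autoImplicit false

namespace Pool.Agent.Results.MP_5b6025_nt.AlmostAllBasesAtOnce

open Polynomial

/-- The first digit in base `q` of the fractional part `{b ^ n x} = 0.a_{n+1} a_{n+2} …`, where `a_i`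
are the digits of `x` in base `b`: the integer `0 ≤ d < q` with `d / q ≤ {b ^ n x} < (d + 1) / q`. -/
noncomputable def lead (q : ℕ) (x : ℝ) (b n : ℕ) : ℕ := ⌊(q : ℝ) * Int.fract (x * (b : ℝ) ^ n)⌋₊

/-- the number of the `m < i ≤ m + n` with `s ≤ {b ^ i x} < t` -/
noncomputable def count (x : ℝ) (b m n : ℕ) (s t : ℝ) : ℕ :=
  {i : ℕ | m < i ∧ i ≤ m + n ∧ s ≤ Int.fract (x * (b : ℝ) ^ i) ∧
    Int.fract (x * (b : ℝ) ^ i) < t}.ncard

/-- Square root discrepancy of the digits of `x` in base `b`: in all windows `m < i ≤ m + n` with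
`m + n ≤ (log b) ^ δ` the number of the `i` with `s ≤ {b ^ i x} < t` differs from `n (t - s)` by at most
`√n (log b) ^ ε`, for all `0 ≤ s ≤ t ≤ 1`. -/
def Good (x δ ε : ℝ) (b : ℕ) : Prop :=
  ∀ m n : ℕ, (m : ℝ) + n ≤ Real.log b ^ δ → ∀ s t : ℝ, 0 ≤ s → s ≤ t → t ≤ 1 →
    |(count x b m n s t : ℝ) - n * (t - s)| ≤ √n * Real.log b ^ ε

/-- `x` is an irrational algebraic number of degree at most `d` and (naive) height at most `H` -/
def AlgIrr (d : ℕ) (H : ℝ) (x : ℝ) : Prop :=
  Irrational x ∧ ∃ P : ℤ[X], Irreducible P ∧ P.natDegree ≤ d ∧ (∀ i, |(P.coeff i : ℝ)| ≤ H) ∧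
    aeval x P = 0

lemma count_eq (x : ℝ) (b m n : ℕ) (s t : ℝ) :
    count x b m n s t = Pool.Agent.Q270.VB.cnt (fun _ : Fin 1 => x) b m n (fun _ => s)
      (fun _ => t) := by
  classical
  unfold count Pool.Agent.Q270.VB.cnt
  rw [← Set.ncard_coe_finset]
  congr 1
  ext i
  simp only [Set.mem_ofPred_eq, Finset.coe_filter, Finset.mem_Ioc, forall_const]
  tauto

lemma good_of_GB {x δ ε : ℝ} {b : ℕ} (h : Pool.Agent.Q270.VB.GB δ ε (fun _ : Fin 1 => x) b) :
    Good x δ ε b := by
  intro m n hmn s t hs hst ht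
  have h1 := h m n hmn (fun _ => s) (fun _ => t) (fun _ => hs) (fun _ => hst) (fun _ => ht)
  rw [count_eq]
  simpa using h1

theorem result : ∃ δ : ℝ, 0 < δ ∧ ∀ d : ℕ,
    (∃ B₀ : ℕ, ∀ B : ℕ, B₀ ≤ B → ∀ x : ℝ, AlgIrr d (Real.exp (√(Real.log B))) x →
      ∀ N q : ℕ, (N : ℝ) ≤ Real.log B ^ δ → 1 ≤ q → (q : ℝ) ≤ Real.exp (Real.log B ^ δ) →
      ∀ W : Set (Fin N → ℕ),
        |({b : ℕ | 1 ≤ b ∧ b ≤ B ∧ (fun i : Fin N => lead q x b (i + 1)) ∈ W}.ncard : ℝ) / B -
          ({w : Fin N → ℕ | (∀ i, w i < q) ∧ w ∈ W}.ncard : ℝ) / (q : ℝ) ^ N| ≤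
            Real.exp (-(Real.log B ^ δ))) ∧
    (∀ ε : ℝ, 0 < ε → ∃ κ : ℝ, 0 < κ ∧ ∃ B₀ : ℕ, ∀ B : ℕ, B₀ ≤ B →
      ({b : ℕ | 1 ≤ b ∧ b ≤ B ∧
        ∃ x, AlgIrr d (Real.exp (Real.log b ^ κ)) x ∧ ¬ Good x δ ε b}.ncard : ℝ) ≤
          B * Real.exp (-(Real.log B ^ κ))) := by
  obtain ⟨δ, hδ0, hδ1, htv, hdisc⟩ := Pool.Agent.Q270.VB.main
  have hlogt : Filter.Tendsto (fun B : ℕ => Real.log B) Filter.atTop Filter.atTop :=
    Real.tendsto_log_atTop.comp tendsto_natCast_atTop_atTop
  refine ⟨δ, hδ0, fun d => ⟨?_, ?_⟩⟩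
  · obtain ⟨B₀, hB₀⟩ := htv 1 (d + 1) (by positivity)
    obtain ⟨B₁, hB₁⟩ := Filter.eventually_atTop.1 (hlogt.eventually (Pool.Agent.Q270.VB.log_c d))
    refine ⟨max B₀ B₁, ?_⟩
    intro B hB x hx N q hN hq hqB W
    have : NeZero q := ⟨by omega⟩
    have h1 := hB₀ B (le_of_max_le_left hB) _ (by positivity) (hB₁ B (le_of_max_le_right hB))
      (fun _ : Fin 1 => x) (Pool.Agent.Q270.VB.ft_alg hx) N hN q hqB
      {w : Fin N → Fin 1 → Fin q | (fun i => (w i 0 : ℕ)) ∈ W}
    rw [pow_one] at h1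
    have h2 : {b : ℕ | 1 ≤ b ∧ b ≤ B ∧ (fun i : Fin N => lead q x b (i + 1)) ∈ W} =
        {b : ℕ | 1 ≤ b ∧ b ≤ B ∧ Pool.Agent.Q270.VB.cell q N (fun _ : Fin 1 => x) b ∈
          {w : Fin N → Fin 1 → Fin q | (fun i => (w i 0 : ℕ)) ∈ W}} := by
      ext b
      have h3 : (fun i : Fin N => ((Pool.Agent.Q270.VB.cell q N (fun _ : Fin 1 => x) b i 0 :
          Fin q) : ℕ)) = (fun i : Fin N => lead q x b (i + 1)) := by
        funext i
        rw [Pool.Agent.Q270.VB.cell_val]
        rfl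
      rw [Set.mem_ofPred_eq, Set.mem_ofPred_eq, Set.mem_ofPred_eq, h3]
    have h3 : {w : Fin N → ℕ | (∀ i, w i < q) ∧ w ∈ W}.ncard =
        {w : Fin N → Fin 1 → Fin q | (fun i => (w i 0 : ℕ)) ∈ W}.ncard := by
      symm
      refine Set.ncard_congr (fun w _ => fun i => (w i 0 : ℕ)) ?_ ?_ ?_
      · intro w hw
        exact ⟨fun i => (w i 0).2, hw⟩
      · intro w w' _ _ h
        funext i j
        rw [Subsingleton.elim j 0]
        exact Fin.ext (congrFun h i)
      · intro w hw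
        exact ⟨fun i _ => ⟨w i, hw.1 i⟩, hw.2, rfl⟩
    rw [h2, h3]
    exact h1
  · intro ε hε
    obtain ⟨κ, hκ, B₀, hB₀⟩ := Pool.Agent.Q270.VB.all_alg hdisc d hε
    refine ⟨κ, hκ, B₀, fun B hB => ?_⟩
    refine le_trans (Nat.cast_le.2 (Set.ncard_le_ncard ?_ ?_)) (hB₀ B hB)
    · rintro b ⟨hb1, hb2, x, hx, hb3⟩
      exact ⟨hb1, hb2, x, hx, fun h => hb3 (good_of_GB h)⟩
    · exact (Set.finite_Iic B).subset fun b hb => hb.2.1

end Pool.Agent.Results.MP_5b6025_nt.AlmostAllBasesAtOnce
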