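import Pool.Agent.Q270.MB.Main

/-!
# The digits of typical algebraic numbers in multiplicatively independent bases are independent

If an irrational algebraic number is normal in the bases `2` and `3`, are its binary and its ternary
digits also independent of each other? For almost all real numbers they are, while for multiplicatively
dependent bases, like `2` and `4`, they are not. It is proved that typical algebraic numbers behave in
the same way: for all real algebraic numbers `x` of degree `d ≥ 2` and height at most `H`, except for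
a proportion `(log H) ^ (-T)` of them, and for all pairwise multiplicatively independent bases
`b_1, …, b_r ≤ B`, for instance `2, 3, 6`, the points `(b_1 ^ (s_1 + i) x, …, b_r ^ (s_r + i) x)`,
`i < L`, have modulo one the discrepancy `(log H) ^ (1/2 + ε)` of random points of the `r`-dimensional
cube, for all windows of places between `κ log H` and `A log H`, and the sums of functions of the
`r`-tuples of words of digits satisfy the central limit theorem with the variance of independent
digits; so the digit sums in different bases are asymptotically independent. The same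
is proved for `√p`, or `ω p ^ θ + P(p)`, for the primes `p ≤ N` of a residue class.

Proof. High moments of the sums over words are compared with those of independent digits. This leads
to exponential sums with the frequencies `f = ∑ h_i b_(j_i) ^ (n_i)`, with a bounded number of terms and
small integers `h_i`. If `f` does not vanish, then it is large, by the subspace theorem, and the sum
saves a power of `H`. If it vanishes, then the part of the sum with `j_i = j` vanishes for every `j`: by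
an inequality of the starting library of the type of the `n`-term `abc` conjecture for products of
`S`-units and small numbers, the terms of a minimal vanishing sum have ratios of small height, but
`b_j ^ n / b_(j') ^ (n')` has a large height for multiplicatively independent `b_j`, `b_(j')`.
-/

set_option autoImplicit false

namespace Pool.Agent.Results.MP_5b6025_nt.IndependentBases

open Filter Topology MeasureTheory ProbabilityTheory Polynomial
open Pool.Agent.Q270.SR (AlgS mem_AlgS SA SA_prob)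
open Pool.Agent.Q270.MB (size_SA size_of_T disc_rep clt_rep Adm)

/-- the real algebraic numbers of degree `d` and height at most `H`: the real roots of the
irreducible integral polynomials of degree `d` with all coefficients at most `H` in absolute value -/
def AlgNumbers (d H : ℕ) : Set ℝ :=
  {x | ∃ P : ℤ[X], Irreducible P ∧ P.natDegree = d ∧ (∀ i, |P.coeff i| ≤ H) ∧ aeval x P = 0}

/-- the real polynomials `G` with `1 ≤ deg G < d`, whose coefficients (but the constant one) are at
most `H ^ c` and whose leading coefficient is at least `H ^ (-c)`, in absolute value -/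
def Moderate (d H : ℕ) (c : ℝ) (G : ℝ[X]) : Prop :=
  1 ≤ G.natDegree ∧ G.natDegree < d ∧ (∀ i, 1 ≤ i → |G.coeff i| ≤ (H : ℝ) ^ c) ∧
    (H : ℝ) ^ (-c) ≤ |G.leadingCoeff|

/-- the primes `p ≤ N` which are congruent to `a` modulo `q` -/
def Primes (a q N : ℕ) : Set ℕ := {p | p.Prime ∧ p ≡ a [MOD q] ∧ p ≤ N}

/-- the number `ω p ^ θ + P(p)` (for `θ = 1/2`, `ω = 1` and `P = 0` this is `√p`) -/
noncomputable def num (θ ω : ℝ) (P : ℝ[X]) (p : ℕ) : ℝ := ω * (p : ℝ) ^ θ + P.eval (p : ℝ)

/-- no positive powers of `a` and `b` are equal -/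
def MultIndep (a b : ℕ) : Prop := ∀ x y : ℕ, 1 ≤ x → 1 ≤ y → a ^ x ≠ b ^ y

/-- the bases are between `2` and `B` and any two of them are multiplicatively independent -/
def Bases (B : ℕ) {r : ℕ} (b : Fin r → ℕ) : Prop :=
  (∀ j, 2 ≤ b j ∧ b j ≤ B) ∧ ∀ j j', j ≠ j' → MultIndep (b j) (b j')

/-- the discrepancy of the `L` points `(b_1 ^ (s_1 + i) y, …, b_r ^ (s_r + i) y)`, `i < L`, modulo one is
at most `E`: the number of the `i < L` such that the fractional part of `b_j ^ (s_j + i) y` is smaller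
than `t_j` for all `j` differs from `L ∏ t_j` by at most `E`, for all `0 ≤ t_j ≤ 1` -/
def DiscLe {r : ℕ} (b s : Fin r → ℕ) (L : ℕ) (y E : ℝ) : Prop :=
  ∀ t : Fin r → ℝ, (∀ j, 0 ≤ t j) → (∀ j, t j ≤ 1) →
    |(({i : ℕ | i < L ∧ ∀ j, Int.fract ((b j : ℝ) ^ (s j + i) * y) < t j}.ncard : ℕ) : ℝ) -
      L * ∏ j, t j| ≤ E

/-- in all tuples of pairwise multiplicatively independent bases up to `B` the joint discrepancy is at
most `E` in all windows of places with `b_j ^ (s_j) ≥ T₀` and `s_j + L ≤ T` -/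
def Independent (B : ℕ) (T₀ T E y : ℝ) : Prop :=
  ∀ (r : ℕ) (b s : Fin r → ℕ) (L : ℕ), 1 ≤ r → Bases B b → (∀ j, T₀ ≤ (b j : ℝ) ^ s j) →
    (∀ j, (s j : ℝ) + L ≤ T) → DiscLe b s L y E

/-- the word of the `k` digits in base `b` of `y` which follow the first `n` digits after the point,
read as an integer between `0` and `b ^ k - 1` -/
noncomputable def word (b k n : ℕ) (y : ℝ) : ℕ :=
  ⌊(b : ℝ) ^ k * Int.fract ((b : ℝ) ^ n * y)⌋₊

/-- the mean of `F` over the tuples of words of `w` digits, in base `b_j` for the index `j` -/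
noncomputable def mean {r : ℕ} (b : Fin r → ℕ) (w : ℕ) (F : (Fin r → ℕ) → ℝ) : ℝ :=
  (∑ c ∈ Fintype.piFinset fun j => Finset.range (b j ^ w), F c) / ((∏ j, b j : ℕ) : ℝ) ^ w

/-- the covariance of the values of `F` at two tuples of words of random digits at the distance `h` -/
noncomputable def cov {r : ℕ} (b : Fin r → ℕ) (w : ℕ) (F : (Fin r → ℕ) → ℝ) (h : ℕ) : ℝ :=
  (∑ c ∈ Fintype.piFinset fun j => Finset.range (b j ^ (w + h)),
    (F (fun j => c j / b j ^ h) - mean b w F) * (F (fun j => c j % b j ^ w) - mean b w F)) /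
    ((∏ j, b j : ℕ) : ℝ) ^ (w + h)

/-- the asymptotic variance of the sums of `F` over the tuples of words of `w` digits -/
noncomputable def variance {r : ℕ} (b : Fin r → ℕ) (w : ℕ) (F : (Fin r → ℕ) → ℝ) : ℝ :=
  cov b w F 0 + 2 * ∑ h ∈ Finset.Ico 1 w, cov b w F h

lemma AlgNumbers_eq (q H : ℕ) : AlgNumbers (q + 2) H = ((AlgS q H : Finset ℝ) : Set ℝ) := by
  ext x
  rw [Finset.mem_coe, mem_AlgS]
  rfl

open Classical in
lemma ncard_alg (q H : ℕ) (p : ℝ → Prop) : ({x ∈ AlgNumbers (q + 2) H | p x}.ncard : ℕ) =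
    ((AlgS q H).filter p).card := by
  have h : {x ∈ AlgNumbers (q + 2) H | p x} = (((AlgS q H).filter p : Finset ℝ) : Set ℝ) := by
    rw [Finset.coe_filter, AlgNumbers_eq]
    rfl
  rw [h, Set.ncard_coe_finset]

lemma Primes_eq (a q N : ℕ) :
    Primes a q N = ((Pool.Agent.Q270.SP.PrA a q N : Finset ℕ) : Set ℕ) := by
  ext p
  simp only [Primes, Pool.Agent.Q270.SP.PrA, Set.mem_ofPred_eq, Finset.coe_filter, Finset.mem_Ioc]
  constructor
  · rintro ⟨h1, h2, h3⟩
    exact ⟨⟨h1.pos, h3⟩, h1, h2⟩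
  · rintro ⟨⟨_, h3⟩, h1, h2⟩
    exact ⟨h1, h2, h3⟩

open Classical in
lemma ncard_primes (a q N : ℕ) (p : ℕ → Prop) : ({m ∈ Primes a q N | p m}.ncard : ℕ) =
    ((Pool.Agent.Q270.SP.PrA a q N).filter p).card := by
  have h : {m ∈ Primes a q N | p m} =
      (((Pool.Agent.Q270.SP.PrA a q N).filter p : Finset ℕ) : Set ℕ) := by
    rw [Finset.coe_filter, Primes_eq]
    rfl
  rw [h, Set.ncard_coe_finset]

/-- the number of the bases is bounded -/
lemma Bases_card {B r : ℕ} {b : Fin r → ℕ} (h : Bases B b) : r ≤ B := by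
  have hinj : Function.Injective b := by
    intro j j' hjj
    by_contra hne
    exact h.2 j j' hne 1 1 le_rfl le_rfl (by rw [hjj])
  have h1 : (Finset.univ.image b).card = r := by
    rw [Finset.card_image_of_injective _ hinj, Finset.card_univ, Fintype.card_fin]
  have h2 : Finset.univ.image b ⊆ Finset.Icc 1 B := by
    intro x hx
    rw [Finset.mem_image] at hx
    obtain ⟨j, _, rfl⟩ := hx
    rw [Finset.mem_Icc]
    exact ⟨by have := (h.1 j).1; omega, (h.1 j).2⟩
  have h3 := Finset.card_le_card h2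
  rw [h1, Nat.card_Icc] at h3
  omega

lemma disc_conv {r : ℕ} {b s : Fin r → ℕ} {L : ℕ} {y E : ℝ}
    (h : Pool.Agent.Q270.SR.Disc b s L (fun _ => y) E) : DiscLe b s L y E := by
  classical
  intro t ht0 ht1
  have h2 : {i : ℕ | i < L ∧ ∀ j, Int.fract ((b j : ℝ) ^ (s j + i) * y) < t j} =
      (((Finset.range L).filter
        (fun i => ∀ j, Int.fract ((b j : ℝ) ^ (s j + i) * y) < t j) : Finset ℕ) : Set ℕ) := by
    ext i
    simp only [Set.mem_ofPred_eq, Finset.coe_filter, Finset.mem_range]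
  rw [h2, Set.ncard_coe_finset]
  exact h t ht0 ht1

open Classical in
/-- all numbers of bases at once -/
lemma disc_all {ι : Type} {S : ℕ → Set (Measure (Fin 1 → ℝ))} {κ Am : ℝ}
    (hS : ∀ M, 1 ≤ M → ∀ P ∈ S M, IsProbabilityMeasure P)
    (hκ : 0 < κ) (hAm0 : 0 ≤ Am) (H : Pool.Agent.Q270.MB.SizeB 1 S (κ / 2) (Am + 2)) (B : ℕ)
    (A T ε : ℝ) (hε : 0 < ε) (hAm : (|A| + |A + 1|) * Real.log (max B 2) ≤ Am) :
    ∃ M₀ : ℕ, ∀ M : ℕ, M₀ ≤ M → ∀ (I : Finset ι) (x : ι → ℝ),
      I.Nonempty → Pool.Agent.Y951.TU.unif I (fun m (_ : Fin 1) => x m) ∈ S M →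
      ((I.filter (fun m => ¬ Independent B ((M : ℝ) ^ κ) (A * Real.log M)
        ((Real.log M) ^ (1 / 2 + ε)) (x m))).card : ℝ) ≤ I.card * (Real.log M) ^ (-T) := by
  have hone : ∀ r : ℕ, ∃ M₀ : ℕ, 1 ≤ r → ∀ M : ℕ, M₀ ≤ M → ∀ (I : Finset ι) (x : ι → ℝ),
      I.Nonempty → Pool.Agent.Y951.TU.unif I (fun m (_ : Fin 1) => x m) ∈ S M →
      ((I.filter (fun m => ¬ ∀ (b s : Fin r → ℕ) (L : ℕ), Bases B b →
        (∀ j, (M : ℝ) ^ κ ≤ (b j : ℝ) ^ s j) → (∀ j, (s j : ℝ) + L ≤ A * Real.log M) →
          DiscLe b s L (x m) ((Real.log M) ^ (1 / 2 + ε)))).card : ℝ) ≤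
        I.card * (Real.log M) ^ (-(T + 1)) := by
    intro r
    rcases Nat.eq_zero_or_pos r with h0 | h0
    · exact ⟨0, fun h => by omega⟩
    obtain ⟨M0, hM0⟩ := disc_rep (ι := ι) (fun _ : Fin r => (0 : Fin 1)) hS hκ hAm0 H h0 B A (T + 1)
      ε hε hAm
    refine ⟨M0, fun _ M hM I x hI hx => ?_⟩
    refine le_trans (Nat.cast_le.2 (Finset.card_le_card fun m hm => ?_))
      (hM0 M hM I (fun m _ => x m) hI hx)
    simp only [Finset.mem_filter] at hm ⊢
    refine ⟨hm.1, fun h2 => hm.2 ?_⟩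
    intro b s L hb hs hsL
    exact disc_conv (h2 b hb.1 (fun j j' hjj _ => hb.2 j j' hjj) s L hs hsL)
  choose M0 hM0 using hone
  have hlog : Tendsto (fun M : ℕ => Real.log (M : ℝ)) atTop atTop :=
    Real.tendsto_log_atTop.comp tendsto_natCast_atTop_atTop
  obtain ⟨M1, hM1⟩ := eventually_atTop.1 ((hlog.eventually_ge_atTop (B : ℝ)).and
    (hlog.eventually_gt_atTop 0))
  refine ⟨max ((Finset.range (B + 1)).sup M0) M1, fun M hM I x hI hx => ?_⟩
  obtain ⟨hΛB, hΛ0⟩ := hM1 M (le_of_max_le_right hM)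
  set Λ : ℝ := Real.log (M : ℝ) with hΛ
  set p : ℕ → ι → Prop := fun r m => ∀ (b s : Fin r → ℕ) (L : ℕ), Bases B b →
        (∀ j, (M : ℝ) ^ κ ≤ (b j : ℝ) ^ s j) → (∀ j, (s j : ℝ) + L ≤ A * Λ) →
          DiscLe b s L (x m) (Λ ^ (1 / 2 + ε)) with hp
  have hsub : I.filter (fun m => ¬ Independent B ((M : ℝ) ^ κ) (A * Λ) (Λ ^ (1 / 2 + ε)) (x m)) ⊆
      (Finset.Icc 1 B).biUnion fun r => I.filter (fun m => ¬ p r m) := by
    intro m hm
    rw [Finset.mem_filter] at hm
    obtain ⟨hmI, hm⟩ := hm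
    by_contra hcon
    apply hm
    intro r b s L hr hb hs hsL
    by_contra h3
    apply hcon
    rw [Finset.mem_biUnion]
    exact ⟨r, Finset.mem_Icc.2 ⟨hr, Bases_card hb⟩,
      Finset.mem_filter.2 ⟨hmI, fun h4 => h3 (h4 b s L hb hs hsL)⟩⟩
  calc _ ≤ (((Finset.Icc 1 B).biUnion fun r => I.filter (fun m => ¬ p r m)).card : ℝ) :=
        Nat.cast_le.2 (Finset.card_le_card hsub)
    _ ≤ ((∑ r ∈ Finset.Icc 1 B, (I.filter (fun m => ¬ p r m)).card : ℕ) : ℝ) :=
        Nat.cast_le.2 Finset.card_biUnion_le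
    _ = ∑ r ∈ Finset.Icc 1 B, ((I.filter (fun m => ¬ p r m)).card : ℝ) := by push_cast; rfl
    _ ≤ ∑ _r ∈ Finset.Icc 1 B, I.card * Λ ^ (-(T + 1)) := by
        refine Finset.sum_le_sum fun r hr => ?_
        rw [Finset.mem_Icc] at hr
        exact hM0 r hr.1 M ((Finset.le_sup (f := M0) (Finset.mem_range.2 (by omega))).trans
          (le_of_max_le_left hM)) I x hI hx
    _ = B * (I.card * Λ ^ (-(T + 1))) := by
        rw [Finset.sum_const, nsmul_eq_mul, Nat.card_Icc, Nat.add_sub_cancel]
    _ ≤ Λ * (I.card * Λ ^ (-(T + 1))) := by gcongr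
    _ = I.card * (Λ * Λ ^ (-(T + 1))) := by ring
    _ = I.card * Λ ^ (-T) := by
        congr 1
        nth_rewrite 1 [← Real.rpow_one Λ]
        rw [← Real.rpow_add hΛ0]
        congr 1
        ring

/-- Let `d ≥ 2`, `B`, `A`, `κ > 0` be given. There is `c > 0` such that

(1) for all `ε > 0` and `T`, all large `H` and all polynomials `G` in `Moderate d H c` (for instance
`G = X`): all real algebraic numbers `x` of degree `d` and height at most `H`, except for a proportion
of at most `(log H) ^ (-T)` of them, are such that for all pairwise multiplicatively independent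
bases `b_1, …, b_r ≤ B` (`r` arbitrary) and all windows of places with `b_j ^ (s_j) ≥ H ^ κ` and
`s_j + L ≤ A log H`, the points `(b_1 ^ (s_1 + i) G(x), …, b_r ^ (s_r + i) G(x))`, `i < L`, have
modulo one a discrepancy of at most `(log H) ^ (1/2 + ε)`;

(2) for all pairwise multiplicatively independent bases `b_1, …, b_r ≤ B`, every function `F` of the
`r`-tuples of words of `w` digits (in base `b_j` for the index `j`) with a positive asymptotic variance
(that of independent digits), for windows of places with `b_j ^ (s_{H,j}) ≥ H ^ κ` and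
`s_{H,j} + L_H ≤ A log H`, whose lengths `L_H` tend to infinity, the sum of `F` over the tuples of words
of the digits of `G_H(x)` in the window is asymptotically normal with the mean `L_H mean` and the
variance `L_H variance`, for a random real algebraic number `x` of degree `d` and height at most `H`.

(3) Let `θ > 0` be a real number which is not an integer, for instance `1/2`, let `a` and `q` be
coprime, and let `D`, `W`, `A`, `B`, `T`, `κ > 0` and `ε > 0` be given. For all large `N`, all real `ω`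
with `1 ≤ |ω| ≤ N ^ W` and all real polynomials `P` of degree at most `D`, all primes `p ≤ N`,
`p ≡ a` modulo `q`, except for a proportion of at most `(log N) ^ (-T)` of them, are such that for
`y = ω p ^ θ + P(p)`, for all pairwise multiplicatively independent bases `b_1, …, b_r ≤ B` and all
windows of places with `b_j ^ (s_j) ≥ N ^ κ` and `s_j + L ≤ A log N`, the points
`(b_1 ^ (s_1 + i) y, …, b_r ^ (s_r + i) y)`, `i < L`, have a discrepancy of at most
`(log N) ^ (1/2 + ε)`. -/
theorem result :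
    (∀ (d B : ℕ) (A κ : ℝ), 2 ≤ d → 0 < κ → ∃ c : ℝ, 0 < c ∧
      (∀ ε T : ℝ, 0 < ε → ∃ H₀ : ℕ, ∀ H : ℕ, H₀ ≤ H → (AlgNumbers d H).Finite ∧
        (AlgNumbers d H).Nonempty ∧ ∀ G : ℝ[X], Moderate d H c G →
        (({x ∈ AlgNumbers d H | ¬ Independent B ((H : ℝ) ^ κ) (A * Real.log H)
            (Real.log H ^ (1 / 2 + ε)) (G.eval x)}.ncard : ℕ) : ℝ) ≤
          Real.log H ^ (-T) * ((AlgNumbers d H).ncard : ℝ)) ∧
      (∀ (r : ℕ) (b : Fin r → ℕ) (w : ℕ) (F : (Fin r → ℕ) → ℝ), 1 ≤ r → Bases B b → 1 ≤ w →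
        0 < variance b w F →
        ∀ (G : ℕ → ℝ[X]) (s : ℕ → Fin r → ℕ) (L : ℕ → ℕ),
        (∀ᶠ H : ℕ in atTop, Moderate d H c (G H)) → Tendsto L atTop atTop →
        (∀ᶠ H : ℕ in atTop, ∀ j, (H : ℝ) ^ κ ≤ (b j : ℝ) ^ s H j) →
        (∀ᶠ H : ℕ in atTop, ∀ j, (s H j : ℝ) + L H ≤ A * Real.log H) → ∀ t : ℝ,
        Tendsto (fun H : ℕ => (({x ∈ AlgNumbers d H |
            ∑ i ∈ Finset.range (L H), F (fun j => word (b j) w (s H j + i) ((G H).eval x)) ≤
              L H * mean b w F + t * √(variance b w F * L H)}.ncard : ℕ) : ℝ) /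
            ((AlgNumbers d H).ncard : ℝ)) atTop (𝓝 ((gaussianReal 0 1).real (Set.Iic t))))) ∧
    (∀ (θ : ℝ), 0 < θ → (∀ m : ℕ, θ ≠ m) → ∀ a q : ℕ, 1 ≤ q → a.Coprime q →
      ∀ (D B : ℕ) (W A T κ ε : ℝ), 0 < κ → 0 < ε → ∃ N₀ : ℕ, ∀ N : ℕ, N₀ ≤ N →
        ∀ (ω : ℝ) (P : ℝ[X]), 1 ≤ |ω| → |ω| ≤ (N : ℝ) ^ W → P.natDegree ≤ D →
        (({p ∈ Primes a q N | ¬ Independent B ((N : ℝ) ^ κ) (A * Real.log N)
            (Real.log N ^ (1 / 2 + ε)) (num θ ω P p)}.ncard : ℕ) : ℝ) ≤
          Real.log N ^ (-T) * ((Primes a q N).ncard : ℝ)) := by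
  classical
  refine ⟨?_, ?_⟩
  · intro d B A κ hd hκ
    obtain ⟨q, rfl⟩ : ∃ q, d = q + 2 := ⟨d - 2, by omega⟩
    set Am : ℝ := (|A| + |A + 1|) * Real.log (max B 2) with hAm
    have hAm0 : 0 ≤ Am := by
      have : 0 ≤ Real.log (max (B : ℝ) 2) :=
        Real.log_nonneg (one_le_two.trans (le_max_right _ _))
      positivity
    obtain ⟨c, hc, hG, H1, hH1⟩ := size_SA q (κ / 2) (Am + 2) (by positivity)
    have hmod : ∀ H (G : ℝ[X]), Moderate (q + 2) H c G → Pool.Agent.Q270.SR.Moderate q H c G := by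
      rintro H G ⟨h1, h2, h3, h4⟩
      exact ⟨h1, by omega, h3, h4⟩
    refine ⟨c, hc, ?_, ?_⟩
    · intro ε T hε
      obtain ⟨M0, hM0⟩ := disc_all (ι := ℝ) (SA_prob q c) hκ hAm0 hG B A T ε hε (by rw [hAm])
      refine ⟨max M0 H1, fun H hH => ?_⟩
      have hne := hH1 H (le_of_max_le_right hH)
      refine ⟨?_, ?_, ?_⟩
      · rw [AlgNumbers_eq]
        exact Finset.finite_toSet _
      · rw [AlgNumbers_eq]
        exact hne
      · intro G hGm
        have h1 := hM0 H (le_of_max_le_left hH) (AlgS q H) (fun x => G.eval x) hne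
          ⟨hne, G, hmod H G hGm, rfl⟩
        rw [ncard_alg, AlgNumbers_eq, Set.ncard_coe_finset, mul_comm (Real.log (H : ℝ) ^ (-T))]
        refine le_trans (Nat.cast_le.2 (Finset.card_le_card fun x hx => ?_)) h1
        simp only [Finset.mem_filter] at hx ⊢
        exact hx
    · intro r b w F hr hb hw hF G s L hGm hL hs hsL t
      have key := clt_rep (ι := ℝ) (fun _ : Fin r => (0 : Fin 1)) (SA_prob q c) hκ hAm0 hG hr B
        hb.1 (fun j j' hjj _ => hb.2 j j' hjj) hw F hF A (by rw [hAm])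
        (fun H => AlgS q H) (fun H x _ => (G H).eval x) (by
          filter_upwards [hGm, eventually_ge_atTop H1] with H h1 h2
          exact ⟨hH1 H h2, hH1 H h2, G H, hmod H _ h1, rfl⟩) s L hL hs hsL t
      refine key.congr fun H => ?_
      rw [ncard_alg, AlgNumbers_eq, Set.ncard_coe_finset]
      congr 2
      apply congrArg Finset.card
      refine Finset.filter_congr fun x _ => ?_
      have h2 : Pool.Agent.Y951.TU.mnT b w F = mean b w F := rfl
      have h3 : Pool.Agent.Y951.TU.cvT b w F 0 +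
          2 * ∑ h ∈ Finset.Ico 1 w, Pool.Agent.Y951.TU.cvT b w F h = variance b w F := rfl
      rw [h2, h3, sub_le_iff_le_add, add_comm (L H * mean b w F)]
      rfl
  · intro θ hθ hθ' a q hq haq D B W A T κ ε hκ hε
    obtain ⟨M1, hM1⟩ := eventually_atTop.1 ((Pool.Agent.Q270.SP.PrA_many a q hq haq (1 / 2)
      (by norm_num)).and (eventually_ge_atTop 1))
    have hne : ∀ N : ℕ, M1 ≤ N → (Pool.Agent.Q270.SP.PrA a q N).Nonempty := fun N hN => by
      obtain ⟨h1, h2⟩ := hM1 N hN
      rw [← Finset.card_pos]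
      have h3 : (0 : ℝ) < (N : ℝ) ^ (1 - (1 / 2 : ℝ)) := by
        have : (0 : ℝ) < N := by exact_mod_cast h2
        positivity
      exact_mod_cast h3.trans_le h1
    have hT : Pool.Agent.Q270.SP.GoodT 1 (Pool.Agent.Q270.SP.SV (fun _ : Fin 1 => θ) D W
        (Pool.Agent.Q270.SP.PrA a q)) := by
      refine Pool.Agent.Q270.SP.good_V W (Pool.Agent.Q270.SP.PrA a q)
        (fun ι hι => Pool.Agent.Q270.SP.PrA_many a q hq haq ι hι) fun A' hA' => ?_
      obtain ⟨τ, hτ, -, x₀, hx₀⟩ := Pool.Agent.Q270.SP.class_sum (r := 1) (d := D)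
        (θ := fun _ => θ) (fun _ => hθ) (fun _ => hθ')
        (fun i j _ => Subsingleton.elim i j) A' hA'
      exact ⟨τ, hτ, x₀, fun X hX f hf1 hf2 Q hQ => hx₀ X hX f hf1 hf2 Q hQ a q hq⟩
    set Am : ℝ := (|A| + |A + 1|) * Real.log (max B 2) with hAm
    have hAm0 : 0 ≤ Am := by
      have : 0 ≤ Real.log (max (B : ℝ) 2) :=
        Real.log_nonneg (one_le_two.trans (le_max_right _ _))
      positivity
    have hG := size_of_T hT (κ := κ / 2) (A := Am + 2) (by positivity) (by linarith)
    obtain ⟨M0, hM0⟩ := disc_all (ι := ℕ) (Pool.Agent.Q270.SP.SV_prob (fun _ : Fin 1 => θ) D W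
      (Pool.Agent.Q270.SP.PrA a q)) hκ hAm0 hG B A T ε hε (by rw [hAm])
    refine ⟨max M0 M1, fun N hN ω P hω1 hω2 hP => ?_⟩
    have h1 := hM0 N (le_of_max_le_left hN) (Pool.Agent.Q270.SP.PrA a q N)
      (fun p => num θ ω P p) (hne N (le_of_max_le_right hN))
      ⟨hne N (le_of_max_le_right hN), fun _ => ω, fun _ => P, fun _ => ⟨hω1, hω2⟩, fun _ => hP, rfl⟩
    rw [ncard_primes, Primes_eq, Set.ncard_coe_finset, mul_comm (Real.log (N : ℝ) ^ (-T))]
    refine le_trans (Nat.cast_le.2 (Finset.card_le_card fun x hx => ?_)) h1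
    simp only [Finset.mem_filter] at hx ⊢
    exact hx

end Pool.Agent.Results.MP_5b6025_nt.IndependentBases
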