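import Pool.Agent.Q83.NQ.H

/-!
# MP_5b6025_nt: a relative form of the question

The question asks for the normality of the irrational numbers algebraic over `ℚ`.  Here `ℚ` is
replaced by `k(β)`, where `k` is any countable field of real numbers and `β` is a real number whose
base `b` digits are prescribed arbitrarily outside a set `T` of places, which may have density
zero, and random at the places of `T`.  Almost surely every real number which is algebraic over
`k(β)` is absolutely normal, except the numbers `p + q β` with `p`, `q` algebraic over `k`.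

`noise d T` is the law of a sequence of independent base `b` digits, uniform at the places in `T`
and equal to the prescribed digits `d` at the other places.  `Recurs b c T` says that `T` has an
element in `[x, x + c log_b x]` for all large `x`.
-/

set_option autoImplicit false

open MeasureTheory Filter Topology Finset
open Q83.NP Q83.NQ

namespace Pool.Agent.Results.MP_5b6025_nt.RelativeNormality

open Classical in
theorem result (b : ℕ) [NeZero b] (hb : 2 ≤ b) :
    (∀ c : ℝ, 0 < c → ∃ T : Set ℕ, Recurs b c T ∧
      Tendsto (fun N : ℕ => (#{t ∈ range N | t ∈ T} : ℝ) / N) atTop (𝓝 0)) ∧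
    ∀ (c : ℝ) (T : Set ℕ), c < 1 / 2 → Recurs b c T →
      ∀ (d : ℕ → Fin b) (x r : ℝ), r ≠ 0 → ∀ (k : Subfield ℝ) [Countable k],
        ∀ᵐ ω ∂(noise d T), (∀ i ∉ T, ω i = d i) ∧ ∀ β : ℝ, β = x + r * Real.ofDigits ω →
          Transcendental k β ∧
          ∀ y : ℝ, IsAlgebraic (IntermediateField.adjoin k {β}) y →
            (∃ p q : ℝ, IsAlgebraic k p ∧ IsAlgebraic k q ∧ y = p + q * β) ∨
            (AbsNormal y ∧ Cancels y) := by
  refine ⟨fun c hc => exists_sparse b hb c hc, fun c T hc hT d x r hr k _ => ?_⟩
  filter_upwards [noise_off hb d T, relative_ae hb d T c hc hT x r hr k] with ω h1 h2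
  refine ⟨h1, ?_⟩
  rintro β rfl
  refine ⟨h2.1, fun y hy => ?_⟩
  rcases h2.2 y hy with h | h
  · exact Or.inl h
  · exact Or.inr ⟨h.absNormal, h⟩

end Pool.Agent.Results.MP_5b6025_nt.RelativeNormality
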