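import Pool.Agent.Q197.PS.E
import Pool.Agent.Q197.PS.NW

/-! # Normality in a base and random unions of residue classes of the positions of the digits -/

set_option autoImplicit false

open Finset Filter Topology

namespace Pool.Agent.Results.MP_5b6025_nt.UnionsOfClasses

open Q197.PS

/-- The `n`-th digit of `x` after the point in base `b`, for `n ≥ 1`. -/
noncomputable def digit (b : ℕ) (x : ℝ) (n : ℕ) : ℤ := ⌊x * (b : ℝ) ^ n⌋ % (b : ℤ)

/-- The block `w` occurs at position `n`. -/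
def Occurs (b : ℕ) (x : ℝ) {k : ℕ} (w : Fin k → Fin b) (n : ℕ) : Prop :=
  ∀ j : Fin k, digit b x (n + j) = ((w j : ℕ) : ℤ)

open Classical in
/-- The block `w` has the right frequency along the positions `n` with `n mod P` in `A`, for `A ⊆ {0, ..., P-1}`. -/
def FreqAlong (b : ℕ) (x : ℝ) {k : ℕ} (w : Fin k → Fin b) (P : ℕ) (A : Finset ℕ) : Prop :=
  Tendsto (fun N : ℕ => (((Icc 1 N).filter (fun n => n % P ∈ A ∧ Occurs b x w n)).card : ℝ) / N) atTop
    (𝓝 ((A.card : ℝ) / (P * (b : ℝ) ^ k)))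

/-- The number `x` is normal in base `b` along the positions `n` with `n mod P` in `A`. -/
def NormalAlong (b : ℕ) (x : ℝ) (P : ℕ) (A : Finset ℕ) : Prop :=
  ∀ k : ℕ, 1 ≤ k → ∀ w : Fin k → Fin b, FreqAlong b x w P A

/-- Normality in base `b`, as in the frozen statement `S17081`. -/
def Normal (b : ℕ) (x : ℝ) : Prop :=
  ∀ k : ℕ, 1 ≤ k → ∀ w : Fin k → ℤ, (∀ j, 0 ≤ w j ∧ w j < (b : ℤ)) →
    Tendsto (fun N : ℕ => (((Finset.range N).filter
      (fun i => ∀ j : Fin k, ⌊x * (b : ℝ) ^ (i + j.val + 1)⌋ % (b : ℤ) = w j)).card : ℝ) / (N : ℝ))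
      atTop (𝓝 (1 / (b : ℝ) ^ k))

open Classical in
/-- The number of the sets `A` of residues modulo `P` along which the block `w` has the right frequency. -/
noncomputable def countBlock (b : ℕ) (x : ℝ) {k : ℕ} (w : Fin k → Fin b) (P : ℕ) : ℕ :=
  ((range P).powerset.filter (fun A => FreqAlong b x w P A)).card

open Classical in
/-- The number of the sets `A` of residues modulo `P` along which `x` is normal. -/
noncomputable def count (b : ℕ) (x : ℝ) (P : ℕ) : ℕ :=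
  ((range P).powerset.filter (fun A => NormalAlong b x P A)).card

/-- The frequency of the block `w` among the first `N` positions. -/
noncomputable def freq (b : ℕ) (x : ℝ) {k : ℕ} (w : Fin k → Fin b) (N : ℕ) : ℝ := by
  classical
  exact (((Icc 1 N).filter (fun n => Occurs b x w n)).card : ℝ) / N

/-- the family with one member -/
def EE (b : ℕ) (x : ℝ) {k : ℕ} (w : Fin k → Fin b) : Unit → ℕ → Prop := fun _ => Occurs b x w

/-- its density -/
noncomputable def BB (b k : ℕ) : Unit → ℝ := fun _ => 1 / (b : ℝ) ^ k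

lemma bb_le {b : ℕ} (hb : 2 ≤ b) (k : ℕ) (s : Unit) : 0 ≤ BB b k s ∧ BB b k s ≤ 1 := by
  unfold BB
  have h1 : (1 : ℝ) ≤ b := by exact_mod_cast (by omega : 1 ≤ b)
  have h2 : (1 : ℝ) ≤ (b : ℝ) ^ k := one_le_pow₀ h1
  exact ⟨by positivity, by rw [div_le_one (by linarith)]; exact h2⟩

lemma freqAlong_iff (b : ℕ) (x : ℝ) {k : ℕ} (w : Fin k → Fin b) (P : ℕ) (A : Finset ℕ) :
    FreqAlong b x w P A ↔ Good (EE b x w) (BB b k) P A := by
  classical
  unfold FreqAlong Good Dens EE BB densA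
  have h : (A.card : ℝ) / (P * (b : ℝ) ^ k) = 1 / (b : ℝ) ^ k * A.card / P := by ring
  rw [h]
  constructor
  · intro h1 _
    refine h1.congr fun N => ?_
    congr 3
  · intro h1
    refine (h1 ()).congr fun N => ?_
    congr 3

lemma countBlock_eq (b : ℕ) (x : ℝ) {k : ℕ} (w : Fin k → Fin b) (P : ℕ) :
    countBlock b x w P = nGood (EE b x w) (BB b k) P := by
  classical
  unfold countBlock nGood
  simp only [freqAlong_iff]

lemma freq_eq (b : ℕ) (x : ℝ) {k : ℕ} (w : Fin k → Fin b) (N : ℕ) : freq b x w N = densA (Occurs b x w) 1 {0} N := by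
  classical
  unfold freq densA
  congr 3
  ext n
  simp only [mem_filter, Nat.mod_one, mem_singleton, true_and]

/-- **Few unions** -/
theorem few {b : ℕ} (hb : 2 ≤ b) (x : ℝ) {k : ℕ} (w : Fin k → Fin b) {c : ℝ} (hc : 0 < c)
    (hfr : ∃ᶠ N : ℕ in atTop, c ≤ |freq b x w N - 1 / (b : ℝ) ^ k|) {P : ℕ} (hP : 0 < P) :
    (countBlock b x w P : ℝ) ≤ (10 + 54 / c) * 2 ^ P / √P := by
  rw [countBlock_eq]
  refine nGood_few (EE b x w) (BB b k) (bb_le hb k) () hc ?_ hP
  refine hfr.mono fun N hN => ?_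
  rw [freq_eq] at hN
  exact hN

lemma digit_bd {b : ℕ} (hb : 2 ≤ b) (x : ℝ) (n : ℕ) : 0 ≤ digit b x n ∧ digit b x n < b := by
  unfold digit
  have h : (0 : ℤ) < b := by exact_mod_cast (by omega : 0 < b)
  exact ⟨Int.emod_nonneg _ h.ne', Int.emod_lt_of_pos _ h⟩

/-- the digits as a sequence -/
noncomputable def DD {b : ℕ} (hb : 2 ≤ b) (x : ℝ) (i : ℕ) : Fin b :=
  ⟨(digit b x (i + 1)).toNat, by
    have := digit_bd hb x (i + 1)
    omega⟩

lemma DD_iff {b : ℕ} (hb : 2 ≤ b) (x : ℝ) (i : ℕ) (v : Fin b) : DD hb x i = v ↔ digit b x (i + 1) = ((v : ℕ) : ℤ) := by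
  have h1 := digit_bd hb x (i + 1)
  rw [Fin.ext_iff]
  unfold DD
  simp only
  constructor
  · intro h
    rw [← h]
    omega
  · intro h
    rw [h]
    simp

lemma occ_iff {b : ℕ} (hb : 2 ≤ b) (x : ℝ) {k : ℕ} (w : Fin k → Fin b) (i : ℕ) :
    (∀ j : Fin k, DD hb x (i + j) = w j) ↔ Occurs b x w (i + 1) := by
  unfold Occurs
  refine forall_congr' fun j => ?_
  rw [DD_iff]
  rw [show i + (j : ℕ) + 1 = i + 1 + (j : ℕ) by omega]

lemma shift_count (Q : ℕ → Prop) [DecidablePred Q] [DecidablePred fun i => Q (i + 1)] (N : ℕ) :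
    ((Icc 1 N).filter Q).card = ((range N).filter (fun i => Q (i + 1))).card := by
  rw [← card_map (addRightEmbedding 1) (s := (range N).filter (fun i => Q (i + 1)))]
  congr 1
  ext n
  simp only [mem_filter, mem_Icc, Finset.mem_map, mem_range, addRightEmbedding_apply]
  constructor
  · rintro ⟨⟨h1, h2⟩, h3⟩
    refine ⟨n - 1, ⟨by omega, ?_⟩, by omega⟩
    rw [Nat.sub_add_cancel h1]
    exact h3
  · rintro ⟨i, ⟨h1, h2⟩, rfl⟩
    exact ⟨⟨by omega, by omega⟩, h2⟩

lemma nor_iff {b : ℕ} (hb : 2 ≤ b) (x : ℝ) : Normal b x ↔ NW.Nor b (DD hb x) := by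
  classical
  constructor
  · intro h k hk w
    have h1 := h k hk (fun j => ((w j : ℕ) : ℤ)) (fun j => ⟨by positivity, by exact_mod_cast (w j).2⟩)
    refine h1.congr fun N => ?_
    refine congrArg (fun m : ℕ => (m : ℝ) / N) (congrArg Finset.card ?_)
    ext i
    simp only [mem_filter]
    refine and_congr_right fun _ => forall_congr' fun j => ?_
    rw [DD_iff]
    rfl
  · intro h k hk w hw
    have h1 := h k hk (fun j => ⟨(w j).toNat, by
      have := hw j
      omega⟩)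
    refine h1.congr fun N => ?_
    refine congrArg (fun m : ℕ => (m : ℝ) / N) (congrArg Finset.card ?_)
    ext i
    simp only [mem_filter]
    refine and_congr_right fun _ => forall_congr' fun j => ?_
    rw [DD_iff]
    have := hw j
    simp only
    rw [Int.toNat_of_nonneg this.1]
    rfl

/-- `freq` and normality -/
lemma nor_iff' {b : ℕ} (hb : 2 ≤ b) (x : ℝ) : Normal b x ↔
    ∀ k : ℕ, 1 ≤ k → ∀ w : Fin k → Fin b, Tendsto (freq b x w) atTop (𝓝 (1 / (b : ℝ) ^ k)) := by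
  classical
  rw [nor_iff hb]
  unfold NW.Nor
  refine forall_congr' fun k => imp_congr_right fun _ => forall_congr' fun w => ?_
  have h1 : ∀ N : ℕ, (((range N).filter (fun i => ∀ j : Fin k, DD hb x (i + j) = w j)).card : ℝ) / N = freq b x w N := by
    intro N
    unfold freq
    refine congrArg (fun m : ℕ => (m : ℝ) / N) ?_
    rw [shift_count]
    refine congrArg Finset.card ?_
    ext i
    simp only [mem_filter, occ_iff hb]
  simp only [h1]

/-- Wall's theorem -/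
lemma along_of_normal {b : ℕ} (hb : 2 ≤ b) {x : ℝ} (h : Normal b x) {P : ℕ} (hP : 0 < P) {A : Finset ℕ}
    (hA : A ⊆ range P) : NormalAlong b x P A := by
  classical
  intro k hk w
  rw [freqAlong_iff]
  intro s
  rw [dens_iff _ _ hP hA]
  have h1 := NW.wall (by omega : 0 < b) ((nor_iff hb x).1 h) hk w (fun i => if (i + 1) % P ∈ A then (1 : ℝ) else 0)
    (fun n => by split_ifs <;> simp) hP (fun n => by simp only [Nat.add_mod, Nat.mod_mod])
  refine h1.congr fun N => ?_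
  unfold avS ces
  rw [← sum_div]
  congr 1
  have h2 : ∑ n ∈ (Icc 1 N).filter (fun n => n % P ∈ A), ci (EE b x w s) (BB b k s) n =
      ∑ n ∈ Icc 1 N, (if n % P ∈ A then (1 : ℝ) else 0) * ci (EE b x w s) (BB b k s) n := by
    rw [sum_filter]
    refine sum_congr rfl fun n _ => ?_
    split_ifs <;> simp
  have h3 : ∀ g : ℕ → ℝ, ∑ n ∈ Icc 1 N, g n = ∑ i ∈ range N, g (i + 1) := by
    intro g
    rw [← Finset.Ico_add_one_right_eq_Icc, sum_Ico_eq_sum_range]
    simp only [Nat.add_sub_cancel, add_comm 1]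
  rw [h2, h3]
  refine sum_congr rfl fun i _ => ?_
  congr 1
  unfold ci NW.ind EE BB
  by_cases h4 : ∀ j : Fin k, DD hb x (i + j) = w j
  · rw [if_pos h4, if_pos ((occ_iff hb x w i).1 h4)]
  · rw [if_neg h4, if_neg fun h5 => h4 ((occ_iff hb x w i).2 h5)]

lemma full_of_normal {b : ℕ} (hb : 2 ≤ b) {x : ℝ} (h : Normal b x) {P : ℕ} (hP : 0 < P) : count b x P = 2 ^ P := by
  classical
  unfold count
  rw [filter_true_of_mem (fun A hA => along_of_normal hb h hP (mem_powerset.1 hA)), card_powerset, card_range]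

lemma big (K : ℝ) : ∃ P : ℕ, 0 < P ∧ K * 2 ^ P / √P ≤ 2 ^ P := by
  obtain ⟨m, hm⟩ := exists_nat_gt (K ^ 2)
  have hm1 : (0 : ℝ) < m := lt_of_le_of_lt (sq_nonneg K) hm
  refine ⟨m, by exact_mod_cast hm1, ?_⟩
  rw [div_le_iff₀ (Real.sqrt_pos.2 hm1), mul_comm]
  apply mul_le_mul_of_nonneg_left _ (by positivity)
  exact Real.le_sqrt_of_sq_le hm.le

lemma count_le {b : ℕ} (x : ℝ) {k : ℕ} (hk : 1 ≤ k) (w : Fin k → Fin b) (P : ℕ) : count b x P ≤ countBlock b x w P := by
  classical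
  unfold count countBlock
  refine card_le_card fun A hA => ?_
  rw [mem_filter] at hA ⊢
  exact ⟨hA.1, hA.2 k hk w⟩

/-- **Criterion**: the moduli may depend on the block -/
theorem normal_of_blocks {b : ℕ} (hb : 2 ≤ b) {x : ℝ}
    (h : ∀ k : ℕ, 1 ≤ k → ∀ w : Fin k → Fin b, ∀ K : ℝ, ∃ P : ℕ, 0 < P ∧ K * 2 ^ P / √P ≤ countBlock b x w P) :
    Normal b x := by
  rw [nor_iff' hb]
  intro k hk w
  by_contra hcon
  have h0 : ¬ Tendsto (fun N => freq b x w N - 1 / (b : ℝ) ^ k) atTop (𝓝 0) := by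
    intro h1
    apply hcon
    have h2 := h1.add_const (1 / (b : ℝ) ^ k)
    simpa using h2
  obtain ⟨c, hc, hfr⟩ := not_tendsto_gen h0
  obtain ⟨P, hP, h2⟩ := h k hk w (2 * (10 + 54 / c))
  have h3 := h2.trans (few hb x w hc hfr hP)
  have hPr : (0 : ℝ) < P := by exact_mod_cast hP
  rw [div_le_div_iff_of_pos_right (Real.sqrt_pos.2 hPr)] at h3
  have h4 : (0 : ℝ) < (10 + 54 / c) * 2 ^ P := by positivity
  linarith

/-- The question. -/
def Question : Prop := ∀ x : ℝ, Irrational x → IsAlgebraic ℚ x → ∃ b : ℕ, 2 ≤ b ∧ Normal b x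

theorem result :
    -- one block with a wrong frequency
    (∀ (b : ℕ), 2 ≤ b → ∀ (x : ℝ) (k : ℕ) (w : Fin k → Fin b) (c : ℝ), 0 < c →
      (∃ᶠ N : ℕ in atTop, c ≤ |freq b x w N - 1 / (b : ℝ) ^ k|) →
      ∀ P : ℕ, 0 < P → (countBlock b x w P : ℝ) ≤ (10 + 54 / c) * 2 ^ P / √P) ∧
    -- numbers that are not normal
    (∀ (b : ℕ), 2 ≤ b → ∀ x : ℝ, ¬ Normal b x →
      ∃ C : ℝ, ∀ P : ℕ, 0 < P → (count b x P : ℝ) ≤ C * 2 ^ P / √P) ∧
    -- criteria for normality
    (∀ (b : ℕ), 2 ≤ b → ∀ x : ℝ, (Normal b x ↔ ∀ P : ℕ, 0 < P → ∀ A ⊆ range P, NormalAlong b x P A) ∧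
      (Normal b x ↔ ∀ K : ℝ, ∃ P : ℕ, 0 < P ∧ K * 2 ^ P / √P ≤ count b x P) ∧
      (Normal b x ↔ ∀ k : ℕ, 1 ≤ k → ∀ w : Fin k → Fin b, ∀ K : ℝ, ∃ P : ℕ, 0 < P ∧
        K * 2 ^ P / √P ≤ countBlock b x w P)) ∧
    -- the question
    (Question ↔ ∀ x : ℝ, Irrational x → IsAlgebraic ℚ x → ∃ b : ℕ, 2 ≤ b ∧ ∀ k : ℕ, 1 ≤ k → ∀ w : Fin k → Fin b,
      ∀ K : ℝ, ∃ P : ℕ, 0 < P ∧ K * 2 ^ P / √P ≤ countBlock b x w P) := by
  have e3 : ∀ (b : ℕ), 2 ≤ b → ∀ x : ℝ, (Normal b x ↔ ∀ k : ℕ, 1 ≤ k → ∀ w : Fin k → Fin b, ∀ K : ℝ,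
      ∃ P : ℕ, 0 < P ∧ K * 2 ^ P / √P ≤ countBlock b x w P) := by
    intro b hb x
    constructor
    · intro h k hk w K
      obtain ⟨P, hP, h1⟩ := big K
      refine ⟨P, hP, h1.trans ?_⟩
      have h2 := count_le x hk w P
      rw [full_of_normal hb h hP] at h2
      exact_mod_cast h2
    · exact normal_of_blocks hb
  refine ⟨fun b hb x k w c hc hfr P hP => few hb x w hc hfr hP, ?_, ?_, ?_⟩
  · intro b hb x hn
    rw [e3 b hb x] at hn
    push Not at hn
    obtain ⟨k, hk, w, K, h⟩ := hn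
    refine ⟨K, fun P hP => ?_⟩
    have h1 : (count b x P : ℝ) ≤ countBlock b x w P := by exact_mod_cast count_le x hk w P
    exact h1.trans (h P hP).le
  · intro b hb x
    refine ⟨⟨fun h P hP A hA => along_of_normal hb h hP hA, fun h => ?_⟩, ⟨fun h K => ?_, fun h => ?_⟩, e3 b hb x⟩
    · rw [nor_iff' hb]
      intro k hk w
      have h1 := h 1 one_pos {0} (by simp) k hk w
      unfold FreqAlong at h1
      rw [card_singleton, Nat.cast_one, one_mul] at h1
      refine h1.congr fun N => ?_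
      rw [freq_eq]
      unfold densA
      refine congrArg (fun m : ℕ => (m : ℝ) / N) (congrArg Finset.card ?_)
      ext n
      simp only [mem_filter]
    · obtain ⟨P, hP, h1⟩ := big K
      refine ⟨P, hP, h1.trans ?_⟩
      rw [full_of_normal hb h hP]
      push_cast
      exact le_refl _
    · refine normal_of_blocks hb fun k hk w K => ?_
      obtain ⟨P, hP, h1⟩ := h K
      exact ⟨P, hP, h1.trans (by exact_mod_cast count_le x hk w P)⟩
  · constructor
    · intro h x hx hxa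
      obtain ⟨b, hb, h1⟩ := h x hx hxa
      exact ⟨b, hb, (e3 b hb x).1 h1⟩
    · intro h x hx hxa
      obtain ⟨b, hb, h1⟩ := h x hx hxa
      exact ⟨b, hb, (e3 b hb x).2 h1⟩

end Pool.Agent.Results.MP_5b6025_nt.UnionsOfClasses
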